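import Pool.Agent.Helper61.TQ.Core

set_option autoImplicit false

namespace Pool.Agent.Helper61.TQ

open Pool.Agent.Helper58 Pool.Agent.Helper53.CL Pool.Agent.Helper52.Grid

theorem OUT_take {α γ : Type} [Enc α] [Enc γ] {l : γ → List α} {n : γ → ℕ} (hl : PTf l)
    (hn : PTf n) : PTf (fun x => (l x).take (n x)) := by
  have : PTf (fun x => ((l x).reverse.drop ((l x).length - n x)).reverse) := by fun_prop
  refine this.congr (fun x => ?_)
  rw [List.drop_reverse, List.reverse_reverse]
  rcases Nat.le_total (n x) (l x).length with h | h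
  · rw [Nat.sub_sub_self h]
  · rw [Nat.sub_eq_zero_of_le h, Nat.sub_zero, List.take_length, List.take_of_length_le h]

theorem OUT_card_all (N : ℕ) (p : (Fin N → Bool) → Prop) [DecidablePred p] (h : ∀ r, p r) :
    2 * 2 ^ N ≤ 3 * Fintype.card {r : Fin N → Bool // p r} := by
  have : Fintype.card {r : Fin N → Bool // p r} = 2 ^ N := by
    rw [Fintype.card_subtype, Finset.filter_true_of_mem (fun r _ => h r), Finset.card_univ,
      Fintype.card_fun, Fintype.card_bool, Fintype.card_fin]
  rw [this]
  omega

theorem st_OUT (hCLS : ST_CLS) (hAVG : ST_AVG) : ST_OUT := by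
  classical
  rintro ⟨A, adv, R, ℓ, hA, hR, hℓ, h1, h2, h3, h4⟩
  obtain ⟨p, hp⟩ := hCLS.2.2.2 ℓ hℓ
  let M : W × W → Bool := fun y =>
    lcase y.1 false (fun a x => a && !(R x (y.2.take (ℓ x.length))))
  have hM : PTf M := by
    have h5 : PTf (fun z : (W × W) × (Bool × W) => ℓ z.2.2.length) :=
      PTf.comp hℓ (by fun_prop)
    have h5' : PTf (fun z : (W × W) × (Bool × W) => z.1.2.take (ℓ z.2.2.length)) :=
      OUT_take (by fun_prop) h5
    have h6 : PTf (fun z : (W × W) × (Bool × W) => R z.2.2 (z.1.2.take (ℓ z.2.2.length))) :=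
      PTf.comp (g := fun x : W × W => R x.1 x.2)
        (f := fun z : (W × W) × (Bool × W) => (z.2.2, z.1.2.take (ℓ z.2.2.length))) hR
        (PTf.pair (by fun_prop) h5')
    have h7 : PTf (fun z : (W × W) × (Bool × W) =>
        z.2.1 && !(R z.2.2 (z.1.2.take (ℓ z.2.2.length)))) := by
      fun_prop
    exact PTf.lcase (l := fun y : W × W => y.1) (f := fun _ => false)
      (g := fun y a x => a && !(R x (y.2.take (ℓ x.length)))) (by fun_prop) (by fun_prop) h7
  have hM' := (hCLS.2.2.1 M).2 hM
  have key : ∀ x : W, ¬ (adv x.length = true ∧ x ∉ SAT) →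
      2 * 2 ^ p.eval x.length ≤ 3 * Fintype.card
      {r : Fin (p.eval x.length) → Bool // M (adv x.length :: x, List.ofFn r) = false} := by
    intro x hx
    by_cases ha : adv x.length = true
    · have hS : x ∈ SAT := by
        by_contra hS
        exact hx ⟨ha, hS⟩
      have h5 := hAVG.2.2.2.2.2.2.2 (p.eval x.length)
        (fun w => R x (w.take (ℓ x.length)))
      have hle := hp x.length
      have h6 := hAVG.2.2.2.2.2.1 (ℓ x.length) (p.eval x.length - ℓ x.length)
        (fun w => ind (R x w = true))
      have e : ℓ x.length + (p.eval x.length - ℓ x.length) = p.eval x.length := by omega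
      rw [e] at h6
      rw [h6] at h5
      have h7 := h4 x hS ha
      have h8 : Fintype.card
          {r : Fin (p.eval x.length) → Bool // M (adv x.length :: x, List.ofFn r) = false} =
          Fintype.card {r : Fin (p.eval x.length) → Bool //
            R x ((List.ofFn r).take (ℓ x.length)) = true} := by
        refine Fintype.card_congr (Equiv.subtypeEquivRight fun r => ?_)
        show (adv x.length && !(R x ((List.ofFn r).take (ℓ x.length)))) = false ↔ _
        rw [ha]
        simp
      rw [h8]
      have h9 : (0 : ℝ) < 2 ^ p.eval x.length := by positivity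
      have h10 : (2 : ℝ) * 2 ^ p.eval x.length ≤ 3 * Fintype.card {r : Fin (p.eval x.length) → Bool //
            R x ((List.ofFn r).take (ℓ x.length)) = true} := by
        rw [← h5]
        nlinarith
      exact_mod_cast h10
    · refine OUT_card_all _ _ fun r => ?_
      show (adv x.length && !(R x ((List.ofFn r).take (ℓ x.length)))) = false
      have : adv x.length = false := by simpa using ha
      rw [this]
      simp
  have key2 : ∀ x : W, (adv x.length = true ∧ x ∉ SAT) → ∀ r : W,
      M (adv x.length :: x, r) = true := by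
    rintro x ⟨ha, hx⟩ r
    show (adv x.length && !(R x (r.take (ℓ x.length)))) = true
    rw [ha]
    have : R x (r.take (ℓ x.length)) = false := by
      by_contra h
      exact hx (h3 x _ (by simpa using h))
    simp [this]
  obtain ⟨B, hB⟩ : ∃ B : Set W, ∀ x, x ∈ B ↔ (adv x.length = true ∧ x ∉ SAT) :=
    ⟨{x | adv x.length = true ∧ x ∉ SAT}, fun x => Iff.rfl⟩
  refine ⟨{x | A x}, B, (hCLS.1 _).2 hA,
    ⟨M, p, adv, hM', fun x hx r => key2 x ((hB x).1 hx) _,
      fun x hx => key x (fun h => hx ((hB x).2 h))⟩,
    ⟨M, p, adv, hM', ?_⟩, ?_⟩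
  · intro x
    by_cases hx : x ∈ B
    · refine OUT_card_all _ _ fun r => ?_
      rw [decide_eq_true hx]
      exact key2 x ((hB x).1 hx) _
    · have := key x (fun h => hx ((hB x).2 h))
      rw [decide_eq_false hx]
      exact this
  · ext x
    constructor
    · intro hx
      by_cases ha : adv x.length = true
      · exact Or.inr ((hB x).2 ⟨ha, hx⟩)
      · exact Or.inl (h2 x hx (by simpa using ha))
    · rintro (hx | hx)
      · exact h1 x hx
      · exact ((hB x).1 hx).2

end Pool.Agent.Helper61.TQ
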