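import Pool.Agent.Helper61.TQ.Core

set_option autoImplicit false

namespace Pool.Agent.Helper61.TQ

theorem AVG_mono (n : ℕ) : ∀ (f g : W → ℝ), (∀ w : W, w.length = n → f w ≤ g w) →
    avg n f ≤ avg n g := by
  induction n with
  | zero => intro f g h; exact h [] rfl
  | succ n ih =>
    intro f g h
    have h1 := ih (fun v => f (false :: v)) (fun v => g (false :: v))
      (fun w hw => h _ (by simp [hw]))
    have h2 := ih (fun v => f (true :: v)) (fun v => g (true :: v))
      (fun w hw => h _ (by simp [hw]))
    simp only [avg]
    linarith

theorem AVG_congr (n : ℕ) (f g : W → ℝ) (h : ∀ w : W, w.length = n → f w = g w) :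
    avg n f = avg n g :=
  le_antisymm (AVG_mono n f g fun w hw => (h w hw).le) (AVG_mono n g f fun w hw => (h w hw).ge)

theorem AVG_add (n : ℕ) : ∀ (f g : W → ℝ), avg n (fun w => f w + g w) = avg n f + avg n g := by
  induction n with
  | zero => intro f g; rfl
  | succ n ih =>
    intro f g
    simp only [avg]
    rw [ih (fun v => f (false :: v)) (fun v => g (false :: v)),
      ih (fun v => f (true :: v)) (fun v => g (true :: v))]
    ring

theorem AVG_mul (n : ℕ) : ∀ (c : ℝ) (f : W → ℝ), avg n (fun w => c * f w) = c * avg n f := by
  induction n with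
  | zero => intro c f; rfl
  | succ n ih =>
    intro c f
    simp only [avg]
    rw [ih c (fun v => f (false :: v)), ih c (fun v => f (true :: v))]
    ring

theorem AVG_const (n : ℕ) (c : ℝ) : avg n (fun _ => c) = c := by
  induction n with
  | zero => rfl
  | succ n ih => simp only [avg, ih]; ring

theorem AVG_app (a b : ℕ) : ∀ (f : W → ℝ),
    avg (a + b) f = avg a (fun u => avg b (fun v => f (u ++ v))) := by
  induction a with
  | zero => intro f; simp [avg]
  | succ a ih =>
    intro f
    have e : a + 1 + b = (a + b) + 1 := by omega
    rw [e]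
    simp only [avg]
    rw [ih, ih]
    rfl

theorem AVG_take (a b : ℕ) (f : W → ℝ) : avg (a + b) (fun w => f (w.take a)) = avg a f := by
  rw [AVG_app]
  refine AVG_congr _ _ _ fun u hu => ?_
  have : ∀ v : W, (u ++ v).take a = u := by
    intro v
    rw [← hu]; simp
  simp only [this]
  exact AVG_const b _

theorem AVG_prod (h : ℕ) (J : ℕ) : ∀ (f : ℕ → W → ℝ), avg (J * h) (fun r =>
    ((List.range J).map (fun s => f s ((r.drop (s * h)).take h))).prod) =
      ((List.range J).map (fun s => avg h (f s))).prod := by
  induction J with
  | zero => intro f; simp [avg]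
  | succ J ih =>
    intro f
    have e : (J + 1) * h = h + J * h := by ring
    rw [e, AVG_app]
    have key : ∀ u : W, u.length = h →
        avg (J * h) (fun v => ((List.range (J + 1)).map
          (fun s => f s (((u ++ v).drop (s * h)).take h))).prod) =
        ((List.range J).map (fun s => avg h (f (s + 1)))).prod * f 0 u := by
      intro u hu
      rw [← ih (fun s => f (s + 1)), mul_comm (avg (J * h) _) (f 0 u), ← AVG_mul]
      refine AVG_congr _ _ _ fun v _ => ?_
      rw [List.range_succ_eq_map, List.map_cons, List.prod_cons, List.map_map]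
      congr 1
      · rw [← hu]; simp
      · congr 1
        apply List.map_congr_left
        intro s _
        have e2 : (u ++ v).drop ((s + 1) * h) = v.drop (s * h) := by
          have e3 : (s + 1) * h = u.length + s * h := by rw [hu]; ring
          rw [e3, ← List.drop_drop, List.drop_left]
        simp only [Function.comp, Nat.succ_eq_add_one, e2]
    rw [AVG_congr h _ _ key, AVG_mul, List.range_succ_eq_map, List.map_cons, List.prod_cons,
      List.map_map, mul_comm]
    rfl

theorem AVG_count (n : ℕ) : ∀ (p : W → Bool), avg n (fun r => ind (p r = true)) * 2 ^ n =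
    Fintype.card {r : Fin n → Bool // p (List.ofFn r) = true} := by
  induction n with
  | zero =>
    intro p
    simp only [avg, pow_zero, mul_one]
    rw [Fintype.card_subtype, Finset.card_filter]
    simp [ind]
  | succ n ih =>
    intro p
    have h1 := ih (fun v => p (false :: v))
    have h2 := ih (fun v => p (true :: v))
    rw [Fintype.card_subtype, Finset.card_filter] at h1 h2 ⊢
    rw [← (Fin.consEquiv (fun _ : Fin (n + 1) => Bool)).sum_comp, Fintype.sum_prod_type,
      Fintype.sum_bool]
    simp only [avg, pow_succ]
    have e : ∀ (b : Bool) (r : Fin n → Bool),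
        List.ofFn ((Fin.consEquiv (fun _ : Fin (n + 1) => Bool)) (b, r)) = b :: List.ofFn r := by
      intro b r
      simp [Fin.consEquiv, List.ofFn_succ]
    simp only [e]
    push_cast at h1 h2 ⊢
    linarith

theorem st_AVG : ST_AVG :=
  ⟨AVG_mono, AVG_add, fun n c f => AVG_mul n c f, AVG_const, AVG_app, AVG_take,
    fun J h f => AVG_prod h J f, AVG_count⟩

end Pool.Agent.Helper61.TQ
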