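import Pool.Agent.Helper61.TQ.Core

set_option autoImplicit false

namespace Pool.Agent.Helper61.TQ

open Pool.Agent.Helper58 Pool.Agent.Helper53.CL Pool.Agent.Helper52.Grid

/-- two words in one word -/
def XOR_pr (p : W × W) : W := p.1.flatMap (fun b => [true, b]) ++ false :: p.2

/-- one step of reading -/
def XOR_step (s : (Bool × Bool) × (W × W)) (a : Bool) : (Bool × Bool) × (W × W) :=
  bif s.1.1 then (s.1, (s.2.1, s.2.2 ++ [a]))
  else bif s.1.2 then ((false, false), (s.2.1 ++ [a], s.2.2))
  else bif a then ((false, true), s.2) else ((true, false), s.2)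

/-- the two words -/
def XOR_un (x : W) : W × W := (x.foldl XOR_step ((false, false), ([], []))).2

theorem XOR_un1 (u v w : W) : (u.flatMap (fun b => [true, b])).foldl XOR_step
    ((false, false), (v, w)) = ((false, false), (v ++ u, w)) := by
  induction u generalizing v with
  | nil => simp
  | cons b u ih =>
    rw [List.flatMap_cons, List.foldl_append]
    have : [true, b].foldl XOR_step ((false, false), (v, w)) =
      ((false, false), (v ++ [b], w)) := rfl
    rw [this, ih]
    simp

theorem XOR_un2 (u v w : W) : u.foldl XOR_step ((true, false), (v, w)) =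
    ((true, false), (v, w ++ u)) := by
  induction u generalizing w with
  | nil => simp
  | cons b u ih =>
    rw [List.foldl_cons]
    have : XOR_step ((true, false), (v, w)) b = ((true, false), (v, w ++ [b])) := rfl
    rw [this, ih]
    simp

theorem XOR_un_pr (p : W × W) : XOR_un (XOR_pr p) = p := by
  unfold XOR_un XOR_pr
  rw [List.foldl_append, XOR_un1, List.foldl_cons]
  have : XOR_step ((false, false), ([] ++ p.1, [])) false = ((true, false), (p.1, [])) := by
    simp [XOR_step]
  rw [this, XOR_un2]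
  simp

theorem XOR_ptf_un : PTf XOR_un := by
  unfold XOR_un
  have h := ptf_foldl_add (γ := W) (l := fun x => x)
    (init := fun _ => ((false, false), (([] : W), ([] : W))))
    (step := fun _ s a => XOR_step s a) (K := fun _ => 10) PTf.id (PTf.const _) ?_
    (PB.const _) ?_
  · exact PTf.snd h
  · unfold XOR_step
    fun_prop
  · rintro x ⟨⟨b, c⟩, v, w⟩ a _
    unfold XOR_step
    have h3 : ∀ (v : List Bool) (c : Bool), sz (v ++ [c]) ≤ sz v + 4 := by
      intro v c
      have h4 := sz_append v [c]
      rw [sz_lcons, sz_lnil] at h4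
      have := sz_bool c
      omega
    cases b
    · cases c
      · cases a
        · simp only [cond_false, sz_pair, sz_true, sz_false]
          omega
        · simp only [cond_false, cond_true, sz_pair, sz_true, sz_false]
          omega
      · simp only [cond_false, cond_true, sz_pair, sz_true, sz_false]
        have := h3 v a
        omega
    · simp only [cond_true, sz_pair]
      have := h3 w a
      omega

theorem XOR_ptf_pr : PTf XOR_pr := by
  unfold XOR_pr
  fun_prop

theorem XOR_code_ne (φ : Fm) : φ.code ≠ [] := by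
  cases φ <;> simp [Fm.code]

theorem XOR_nil : ([] : W) ∉ SAT := by
  rintro ⟨φ, h, _⟩
  exact XOR_code_ne φ h

theorem st_XOR (hCLS : ST_CLS) : ST_XOR := by
  classical
  intro hTQ
  have h2 : InPSat 2 {x : W | ¬ ((XOR_un x).1 ∈ SAT ↔ (XOR_un x).2 ∈ SAT)} := by
    refine ⟨fun i x => if i = 0 then (XOR_un x).1 else (XOR_un x).2,
      fun s => {_x | s 0 ≠ s 1}, ?_, ?_, ?_⟩
    · intro i
      rw [hCLS.2.1]
      by_cases hi : i = 0
      · simp only [hi, if_true]
        exact PTf.fst XOR_ptf_un
      · simp only [hi, if_false]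
        exact PTf.snd XOR_ptf_un
    · intro s
      rw [inP_iff]
      exact (PTf.const (decide (s 0 ≠ s 1))).congr (fun x => by simp)
    · intro x
      simp only [Set.mem_ofPred_eq]
      by_cases ha : (XOR_un x).1 ∈ SAT <;> by_cases hb : (XOR_un x).2 ∈ SAT <;> simp [ha, hb]
  have h1 : InPSat 1 {x : W | ¬ ((XOR_un x).1 ∈ SAT ↔ (XOR_un x).2 ∈ SAT)} := by
    have : {x : W | ¬ ((XOR_un x).1 ∈ SAT ↔ (XOR_un x).2 ∈ SAT)} ∈ {L | InPSat 2 L} := h2
    rw [← hTQ] at this
    exact this
  obtain ⟨q, D, hq, hD, h⟩ := h1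
  have hq0 : PTf (q 0) := (hCLS.2.1 _).1 (hq 0)
  have hD0 : PTf (fun u : W => decide (u ∈ D (fun _ => false))) := (inP_iff _).1 (hD _)
  have hD1 : PTf (fun u : W => decide (u ∈ D (fun _ => true))) := (inP_iff _).1 (hD _)
  have e0 : PTf (fun p : W × W => decide (XOR_pr p ∈ D (fun _ => false))) :=
    PTf.comp hD0 XOR_ptf_pr
  have e1 : PTf (fun p : W × W => decide (XOR_pr p ∈ D (fun _ => true))) :=
    PTf.comp hD1 XOR_ptf_pr
  have eq0 : PTf (fun p : W × W => q 0 (XOR_pr p)) := PTf.comp hq0 XOR_ptf_pr
  refine ⟨fun ρ ψ => decide (XOR_pr (ρ, ψ) ∈ D (fun _ => false)),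
    fun ρ ψ => bif (decide (decide (XOR_pr (ρ, ψ) ∈ D (fun _ => false)) =
      decide (XOR_pr (ρ, ψ) ∈ D (fun _ => true)))) then [] else q 0 (XOR_pr (ρ, ψ)),
    e0, ?_, ?_⟩
  · exact PTf.cond (PTf.decEq e0 e1) (PTf.const _) eq0
  · intro ρ ψ
    have hx := h (XOR_pr (ρ, ψ))
    rw [Set.mem_ofPred_eq, XOR_un_pr] at hx
    simp only at hx ⊢
    by_cases hs : q 0 (XOR_pr (ρ, ψ)) ∈ SAT
    · have hf : (fun i : Fin 1 => decide (q i (XOR_pr (ρ, ψ)) ∈ SAT)) = fun _ => true := by
        funext i
        rw [Subsingleton.elim i 0]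
        simp [hs]
      rw [hf] at hx
      by_cases a0 : XOR_pr (ρ, ψ) ∈ D (fun _ => false) <;>
        by_cases a1 : XOR_pr (ρ, ψ) ∈ D (fun _ => true) <;>
        simp only [a0, a1, decide_true, decide_false, cond_true, cond_false, hs, XOR_nil,
          iff_true, iff_false, true_iff, false_iff, not_true, not_false_iff, not_not,
          Bool.false_eq_true, reduceCtorEq] at hx ⊢ <;> tauto
    · have hf : (fun i : Fin 1 => decide (q i (XOR_pr (ρ, ψ)) ∈ SAT)) = fun _ => false := by
        funext i
        rw [Subsingleton.elim i 0]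
        simp [hs]
      rw [hf] at hx
      by_cases a0 : XOR_pr (ρ, ψ) ∈ D (fun _ => false) <;>
        by_cases a1 : XOR_pr (ρ, ψ) ∈ D (fun _ => true) <;>
        simp only [a0, a1, decide_true, decide_false, cond_true, cond_false, hs, XOR_nil,
          iff_true, iff_false, true_iff, false_iff, not_true, not_false_iff, not_not,
          Bool.false_eq_true, reduceCtorEq] at hx ⊢ <;> tauto

end Pool.Agent.Helper61.TQ
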